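import Pool.Agent.ANR.Stmts

/-!
# Tank ANR, rows LVI and CUT (helper70)
-/

set_option autoImplicit false

open scoped BigOperators ComplexConjugate

noncomputable section

namespace Pool.Agent.ANR.H70

theorem lvi : LviStmt := by
  intro X _ _ H H' κ κ' F x L hoff hlev ψ hψ
  have h1 : Sol H κ F ψ := by
    intro z hz
    obtain ⟨h2, h3⟩ := hoff z hz
    have h4 := hψ z hz
    rw [opv, h2] at h4
    rw [opv, ← h4]
    congr 1
    exact Finset.sum_congr rfl fun y _ => by rw [h3 y]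
  have h5 : Q κ' F ψ = Q κ F ψ := by
    rw [Q, Q]
    refine Finset.sum_congr rfl fun z hz => ?_
    rw [(hoff z (Finset.mem_compl.1 hz)).1]
  rw [h5]
  exact hlev ψ h1

theorem cut : CutStmt := by
  intro X _ _ G κ A F f c hsym hd hf
  have e1 : ∀ x, ∑ y ∈ A ∪ F, κ x * κ y * ‖G x y‖ ^ 2 * (f x - f y) ^ 2 =
      ∑ y ∈ A, κ x * κ y * ‖G x y‖ ^ 2 * (f x - f y) ^ 2 +
        κ x * fl G κ F x * (f x - c) ^ 2 := by
    intro x
    rw [Finset.sum_union hd]
    congr 1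
    rw [fl, Finset.mul_sum, Finset.sum_mul]
    refine Finset.sum_congr rfl fun b hb => ?_
    rw [hf b hb]
    ring
  have e2 : ∑ x ∈ F, ∑ y ∈ A ∪ F, κ x * κ y * ‖G x y‖ ^ 2 * (f x - f y) ^ 2 =
      ∑ x ∈ A, κ x * fl G κ F x * (f x - c) ^ 2 := by
    have e3 : ∀ x ∈ F, ∑ y ∈ A ∪ F, κ x * κ y * ‖G x y‖ ^ 2 * (f x - f y) ^ 2 =
        ∑ y ∈ A, κ x * κ y * ‖G x y‖ ^ 2 * (f x - f y) ^ 2 := by
      intro x hx
      rw [e1, hf x hx, sub_self]
      ring
    rw [Finset.sum_congr rfl e3, Finset.sum_comm]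
    refine Finset.sum_congr rfl fun y _ => ?_
    rw [fl, Finset.mul_sum, Finset.sum_mul]
    refine Finset.sum_congr rfl fun x hx => ?_
    rw [hf x hx, hsym x y]
    ring
  rw [cE, Finset.sum_union hd, e2, Finset.sum_congr rfl fun x _ => e1 x,
    Finset.sum_add_distrib, cE]
  ring

end Pool.Agent.ANR.H70
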